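import Pool.Agent.Helper91.SY.Heads

set_option autoImplicit false

namespace Pool.Agent.Helper18.SY

open Pool.Agent.Helper91.SY (V)

theorem cv_ : Pool.Agent.Helper91.SY.StmtCV := by
  intro n
  let A : (V n [⋀^Fin 2]→L[ℝ] ℝ) →L[ℝ] ContinuousMultilinearMap ℝ (fun _ : Fin 2 => V n) ℝ :=
    ContinuousAlternatingMap.toContinuousMultilinearMapCLM ℝ
  let B : ContinuousMultilinearMap ℝ (fun _ : Fin 2 => V n) ℝ →L[ℝ]
      (V n →L[ℝ] ContinuousMultilinearMap ℝ (fun _ : Fin 1 => V n) ℝ) :=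
    ((continuousMultilinearCurryLeftEquiv ℝ (fun _ : Fin 2 => V n) ℝ).toContinuousLinearEquiv :
      ContinuousMultilinearMap ℝ (fun _ : Fin 2 => V n) ℝ →L[ℝ] _)
  let C : ContinuousMultilinearMap ℝ (fun _ : Fin 1 => V n) ℝ →L[ℝ] (V n →L[ℝ] ℝ) :=
    ((continuousMultilinearCurryFin1 ℝ (V n) ℝ).toContinuousLinearEquiv :
      ContinuousMultilinearMap ℝ (fun _ : Fin 1 => V n) ℝ →L[ℝ] _)
  refine ⟨(ContinuousLinearMap.compL ℝ (V n) _ _ C).comp (B.comp A), ?_⟩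
  intro a u v
  show a (Fin.cons u (Fin.snoc 0 v)) = a ![u, v]
  congr 1
  funext i
  fin_cases i
  · rfl
  · rfl

end Pool.Agent.Helper18.SY
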